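import Mathlib
import Pool.Agent.L7h73.Scft

set_option autoImplicit false

/-!
# Every forcing preserves winning strategies of player II in the strong countable fan tightness game

This answers Q1 affirmatively; strong properness is not needed. The definitions used in the
statement are in `Pool/Agent/L7h73/Scft.lean` (the game, in the ground model and in the extension)
and `Pool/Agent/Helper669/Forcing.lean` (the forcing relation: a sentence is the set of the
conditions which force it).

Idea of the proof: II wins the game at `x` if and only if the player who chooses neighbourhoods of
`x` wins the dual game, and a winning strategy for this player remains winning in every extension,
since it is winning if and only if certain trees of the ground model are well-founded.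
-/

namespace Pool.Agent.Results.MP_07c8c2_lc.EveryForcing

open Pool.Agent.L7h73.Scft

universe u v

/-- Let `X` be a topological space, `x` a point of `X` and `P` any forcing notion (in particular,
one which is strongly proper for stationarily many models). If player II has a winning strategy in
the strong countable fan tightness game at `x`, then every condition of `P` forces that player II
has a winning strategy in the strong countable fan tightness game at `x` for the topology on `X`
which has the open sets of the ground model as a base. -/
theorem result (P : Type u) [Preorder P] (X : Type v) [TopologicalSpace X] (x : X)
    (h : TwoWins x) (p : P) : p ∈ TwoWinsExt P x :=
  main x h p

end Pool.Agent.Results.MP_07c8c2_lc.EveryForcing
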